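import Mathlib

set_option autoImplicit false

/-!
# Regular models of finite ground normal logic programs: definitions
-/

namespace Pool.Agent.R547.RM

/-- The three truth values: `0` is false, `1` is undefined (the value `1/2`), `2` is true (the
value `1`); so a truth value is written here as twice its value. The order is the truth order, and
the negation `1 - x` is `Fin.rev`. -/
abbrev TV : Type := Fin 3

/-- A ground normal rule `head ← pos₁, …, posₘ, ¬ neg₁, …, ¬ negₙ`. -/
structure Rule (α : Type) where
  /-- the head of the rule -/
  head : α
  /-- the atoms of the positive body literals -/
  pos : Finset α
  /-- the atoms of the negative body literals -/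
  neg : Finset α

/-- A ground normal program whose Herbrand base is `α`: a finite set of rules. -/
abbrev Program (α : Type) := Finset (Rule α)

variable {α : Type}

/-- The arcs of the atom dependency graph. `Arc P false u v`: there is a positive arc `u → v`,
`Arc P true u v`: there is a negative arc `u → v`. -/
def Arc (P : Program α) : Bool → α → α → Prop
  | false, u, v => ∃ r ∈ P, r.head = v ∧ u ∈ r.pos
  | true, u, v => ∃ r ∈ P, r.head = v ∧ u ∈ r.neg

/-- A (directed) cycle of the atom dependency graph: distinct vertices `v 0, …, v n` and for each
`i` an arc `v i → v (i + 1)`, where the indices are taken modulo `n + 1`; `sgn i = true` if the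
chosen arc is negative. For `n = 0` this is a loop. -/
structure Cycle (P : Program α) where
  /-- the length minus one -/
  n : ℕ
  /-- the vertices -/
  v : Fin (n + 1) → α
  /-- the signs of the arcs -/
  sgn : Fin (n + 1) → Bool
  inj : Function.Injective v
  arc : ∀ i, Arc P (sgn i) (v i) (v (i + 1))

/-- A cycle is even if the number of its negative arcs is even. -/
def Cycle.IsEven {P : Program α} (C : Cycle P) : Prop :=
  Even (Finset.univ.filter fun i => C.sgn i = true).card

/-- `U` meets every even cycle of the atom dependency graph. -/
def EvenFVS (P : Program α) (U : Finset α) : Prop :=
  ∀ C : Cycle P, C.IsEven → ∃ i, C.v i ∈ U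

/-- `J` is a three-valued model of the reduct `P^I`: for every rule the value of the body, i.e. the
minimum of the values `J b` of the positive body atoms `b` and of the constants `1 - I c` for the
negated body atoms `c`, is at most the value `J a` of the head `a` (an empty minimum is true). -/
def ReductModel (P : Program α) (I J : α → TV) : Prop :=
  ∀ r ∈ P, (r.pos.inf J) ⊓ (r.neg.inf fun c => (I c).rev) ≤ J r.head

/-- `I` is a stable partial model: `I` is the least three-valued model of the reduct `P^I` with
respect to the (pointwise) truth order. -/
def StablePartial (P : Program α) (I : α → TV) : Prop :=
  IsLeast {J | ReductModel P I J} I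

/-- The information order: `I ≤ₖ J` if `J a = I a` whenever `I a` is not the value undefined. -/
def InfoLE (I J : α → TV) : Prop :=
  ∀ a, I a ≠ 1 → J a = I a

/-- A regular model: a stable partial model which is maximal with respect to the information
order among the stable partial models. -/
def Regular (P : Program α) (I : α → TV) : Prop :=
  StablePartial P I ∧ ∀ J, StablePartial P J → InfoLE I J → J = I

end Pool.Agent.R547.RM
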