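import Pool.Agent.R547.RM.Defs

set_option autoImplicit false

/-!
# Regular models: two different regular models are in conflict on every even feedback vertex set
-/

namespace Pool.Agent.R547.RM

variable {α : Type}

/-- The value of the body of a rule. -/
noncomputable def body (I J : α → TV) (r : Rule α) : TV :=
  (r.pos.inf J) ⊓ (r.neg.inf fun c => (I c).rev)

theorem le_body_iff {I J : α → TV} {r : Rule α} {x : TV} :
    x ≤ body I J r ↔ (∀ b ∈ r.pos, x ≤ J b) ∧ (∀ c ∈ r.neg, x ≤ (I c).rev) := by
  simp [body, Finset.le_inf_iff]

theorem body_mono {I J J' : α → TV} {r : Rule α} (h : J ≤ J') : body I J r ≤ body I J' r := by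
  rw [le_body_iff]
  have h2 := (le_body_iff (I := I) (J := J) (r := r) (x := body I J r)).1 le_rfl
  exact ⟨fun b hb => (h2.1 b hb).trans (h b), h2.2⟩

theorem reductModel_iff {P : Program α} {I J : α → TV} :
    ReductModel P I J ↔ ∀ r ∈ P, body I J r ≤ J r.head := Iff.rfl

/-- The least model of the reduct. -/
noncomputable def Gam (P : Program α) (I : α → TV) : α → TV :=
  sInf {J | ReductModel P I J}

theorem Gam_model (P : Program α) (I : α → TV) : ReductModel P I (Gam P I) := by
  rw [reductModel_iff]
  intro r hr
  show body I (Gam P I) r ≤ (sInf {J | ReductModel P I J}) r.head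
  rw [sInf_apply]
  refine le_iInf ?_
  rintro ⟨J, hJ⟩
  have h1 : Gam P I ≤ J := sInf_le hJ
  exact (body_mono h1).trans (hJ r hr)

theorem Gam_isLeast (P : Program α) (I : α → TV) : IsLeast {J | ReductModel P I J} (Gam P I) :=
  ⟨Gam_model P I, fun _ hJ => sInf_le hJ⟩

theorem stable_iff {P : Program α} {I : α → TV} : StablePartial P I ↔ Gam P I = I :=
  ⟨fun h => (Gam_isLeast P I).unique h, fun h => by
    have := Gam_isLeast P I
    rwa [h] at this⟩

theorem TV.cases3 (x : TV) : x = 0 ∨ x = 1 ∨ x = 2 := by
  revert x; decide

theorem TV.eq_two {x : TV} (h : 2 ≤ x) : x = 2 := by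
  revert x; decide

theorem TV.rev_two {x : TV} (h : 2 ≤ x.rev) : x = 0 := by
  revert x; decide

theorem TV.le_zero {x : TV} (h : x ≤ 0) : x = 0 := by
  revert x; decide

theorem TV.not_two_le_one : ¬ (2 : TV) ≤ 1 := by decide

theorem infoLE_rfl (I : α → TV) : InfoLE I I := fun _ _ => rfl

theorem InfoLE.trans {I J K : α → TV} (h1 : InfoLE I J) (h2 : InfoLE J K) : InfoLE I K := by
  intro a ha
  have h3 := h1 a ha
  rw [h2 a (by rwa [h3]), h3]

/-- The operator `Γ` is monotone with respect to the information order. -/
theorem Gam_mono (P : Program α) {I J : α → TV} (h : InfoLE I J) :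
    InfoLE (Gam P I) (Gam P J) := by
  classical
  set A := Gam P I with hA
  set B := Gam P J with hB
  have hAm : ReductModel P I A := Gam_model P I
  have hBm : ReductModel P J B := Gam_model P J
  rw [reductModel_iff] at hAm hBm
  intro a ha
  rcases TV.cases3 (A a) with h0 | h1 | h2
  · -- `A a = 0`
    rw [h0]
    let B' : α → TV := fun a => if A a = 0 then 0 else B a
    have hB' : ReductModel P J B' := by
      rw [reductModel_iff]
      intro r hr
      by_cases hh : A r.head = 0
      · have h3 : body I A r ≤ 0 := by rw [← hh]; exact hAm r hr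
        show body J B' r ≤ B' r.head
        have h4 : B' r.head = 0 := by simp [B', hh]
        rw [h4]
        by_contra hcon
        have hcon' : (1 : TV) ≤ body J B' r := by
          generalize body J B' r = y at hcon
          revert hcon; revert y; decide
        rw [le_body_iff] at hcon'
        have h5 : (1 : TV) ≤ body I A r := by
          rw [le_body_iff]
          constructor
          · intro b hb
            have h6 := hcon'.1 b hb
            by_contra h7
            have h8 : A b = 0 := by
              generalize A b = y at h7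
              revert h7; revert y; decide
            simp [B', h8] at h6
          · intro c hc
            have h6 := hcon'.2 c hc
            by_contra h7
            have h8 : I c = 2 := by
              generalize I c = y at h7
              revert h7; revert y; decide
            have h9 : J c = 2 := by
              rw [h c (by rw [h8]; decide), h8]
            rw [h9] at h6
            revert h6; decide
        exact absurd (h5.trans h3) (by decide)
      · show body J B' r ≤ B' r.head
        have h4 : B' r.head = B r.head := by simp [B', hh]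
        rw [h4]
        refine le_trans (body_mono ?_) (hBm r hr)
        intro b
        by_cases hb : A b = 0
        · simp [B', hb]
        · simp [B', hb]
    have h3 : B ≤ B' := (Gam_isLeast P J).2 hB'
    have h4 := h3 a
    have h5 : B' a = 0 := by simp [B', h0]
    rw [h5] at h4
    exact TV.le_zero h4
  · exact absurd h1 ha
  · rw [h2]
    by_contra hcon
    let A' : α → TV := fun a => if B a = 2 then A a else A a ⊓ 1
    have hA'A : A' ≤ A := by
      intro b
      by_cases hb : B b = 2
      · simp [A', hb]
      · simp only [A', hb, if_false]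
        exact inf_le_left
    have hA' : ReductModel P I A' := by
      rw [reductModel_iff]
      intro r hr
      have h3 : body I A' r ≤ A r.head := (body_mono hA'A).trans (hAm r hr)
      by_cases hh : B r.head = 2
      · have h4 : A' r.head = A r.head := by simp [A', hh]
        rw [h4]
        exact h3
      · have h4 : A' r.head = A r.head ⊓ 1 := by simp [A', hh]
        rw [h4]
        refine le_inf h3 ?_
        by_contra h5
        have h6 : (2 : TV) ≤ body I A' r := by
          generalize body I A' r = y at h5
          revert h5; revert y; decide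
        rw [le_body_iff] at h6
        have h7 : (2 : TV) ≤ body J B r := by
          rw [le_body_iff]
          constructor
          · intro b hb
            have h8 := h6.1 b hb
            by_contra h9
            have h10 : B b ≠ 2 := by
              intro h; rw [h] at h9; exact h9 le_rfl
            have h11 : A' b = A b ⊓ 1 := by simp [A', h10]
            rw [h11] at h8
            have h12 : (2 : TV) ≤ 1 := h8.trans inf_le_right
            exact absurd h12 (by decide)
          · intro c hc
            have h8 := TV.rev_two (h6.2 c hc)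
            rw [h c (by rw [h8]; decide), h8]
            decide
        exact hh (TV.eq_two (h7.trans (hBm r hr)))
    have h3 : A ≤ A' := (Gam_isLeast P I).2 hA'
    have h4 := h3 a
    have h5 : A' a = A a ⊓ 1 := by simp [A', hcon]
    rw [h5, h2] at h4
    exact TV.not_two_le_one (h4.trans inf_le_right)

/-- A finite nonempty set of vertices with signs, in which every vertex has a predecessor by an arc
whose sign is compatible with the signs of the vertices, contains an even cycle. -/
theorem exists_cycle [Finite α] {P : Program α} (S : Set α) (s : α → Bool) (hne : S.Nonempty)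
    (hpred : ∀ v ∈ S, ∃ w ∈ S, Arc P (xor (s w) (s v)) w v) :
    ∃ C : Cycle P, C.IsEven ∧ ∀ i, C.v i ∈ S := by
  classical
  choose! p hpS hpA using hpred
  let q : S → S := fun v => ⟨p v.1, hpS v.1 v.2⟩
  obtain ⟨x0, hx0⟩ := hne
  -- a periodic point
  obtain ⟨x, hx⟩ : ∃ x : S, x ∈ Function.periodicPts q := by
    have : Nonempty S := ⟨⟨x0, hx0⟩⟩
    obtain ⟨m, n, hmn, heq⟩ := Finite.exists_ne_map_eq_of_infinite
      (fun k : ℕ => q^[k] ⟨x0, hx0⟩)
    wlog hlt : m < n generalizing m n
    · exact this n m hmn.symm heq.symm (by omega)
    refine ⟨q^[m] ⟨x0, hx0⟩, n - m, by omega, ?_⟩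
    show q^[n - m] (q^[m] ⟨x0, hx0⟩) = q^[m] ⟨x0, hx0⟩
    rw [← Function.iterate_add_apply, Nat.sub_add_cancel hlt.le]
    exact heq.symm
  have hpos : 0 < Function.minimalPeriod q x := Function.minimalPeriod_pos_of_mem_periodicPts hx
  obtain ⟨n, hn⟩ : ∃ n, Function.minimalPeriod q x = n + 1 :=
    ⟨Function.minimalPeriod q x - 1, by omega⟩
  have hper : q^[n + 1] x = x := by
    have := Function.isPeriodicPt_minimalPeriod q x
    rw [hn] at this
    exact this
  let v : Fin (n + 1) → S := fun i => q^[n - i.1] x
  have hv : ∀ i, v i = q (v (i + 1)) := by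
    intro i
    show q^[n - i.1] x = q (q^[n - (i + 1).1] x)
    rw [← Function.iterate_succ_apply' q]
    by_cases hi : i = Fin.last n
    · subst hi
      simp only [Fin.last_add_one, Fin.val_last, Fin.val_zero, Nat.sub_self, Nat.sub_zero]
      rw [hper]; rfl
    · have h1 : (i + 1).1 = i.1 + 1 := by
        rw [Fin.val_add_one]
        simp [hi]
      have h2 : i.1 < n := by
        have := i.2
        have h3 : i.1 ≠ n := fun h => hi (Fin.ext h)
        omega
      rw [h1]
      congr 1
      omega
  have hinj : Function.Injective v := by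
    intro i j hij
    have h1 : q^[n - i.1] x = q^[n - j.1] x := hij
    have h2 := (Function.iterate_eq_iterate_iff_of_lt_minimalPeriod (f := q) (x := x)
      (by rw [hn]; omega) (by rw [hn]; omega)).1 h1
    apply Fin.ext
    have := i.2
    have := j.2
    omega
  refine ⟨⟨n, fun i => (v i).1, fun i => xor (s (v i).1) (s (v (i + 1)).1), ?_, ?_⟩, ?_, ?_⟩
  · intro i j hij
    exact hinj (Subtype.ext hij)
  · intro i
    have h1 : (v i).1 = p (v (i + 1)).1 := by
      rw [hv i]
    show Arc P (xor (s (v i).1) (s (v (i + 1)).1)) (v i).1 (v (i + 1)).1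
    have h2 := hpA (v (i + 1)).1 (v (i + 1)).2
    rw [← h1] at h2
    exact h2
  · show Even (Finset.univ.filter fun i : Fin (n + 1) =>
      xor (s (v i).1) (s (v (i + 1)).1) = true).card
    rw [← ZMod.natCast_eq_zero_iff_even, Finset.card_filter, Nat.cast_sum]
    let b : Fin (n + 1) → ZMod 2 := fun i => if s (v i).1 = true then 1 else 0
    have h1 : ∀ i : Fin (n + 1),
        ((if (xor (s (v i).1) (s (v (i + 1)).1)) = true then 1 else 0 : ℕ) : ZMod 2)
          = b i + b (i + 1) := by
      intro i
      show _ = (if s (v i).1 = true then (1 : ZMod 2) else 0) +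
        (if s (v (i + 1)).1 = true then (1 : ZMod 2) else 0)
      generalize s (v i).1 = y
      generalize s (v (i + 1)).1 = z
      revert y z
      decide
    rw [Finset.sum_congr rfl fun i _ => h1 i, Finset.sum_add_distrib]
    have h2 : ∑ i : Fin (n + 1), b (i + 1) = ∑ i : Fin (n + 1), b i :=
      Equiv.sum_comp (Equiv.addRight (1 : Fin (n + 1))) b
    rw [h2]
    generalize ∑ i : Fin (n + 1), b i = y
    revert y; decide
  · intro i
    exact (v i).2

/-- Two stable partial models which are in conflict somewhere are in conflict on every set which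
meets every even cycle. -/
theorem conflict_on_U [Finite α] {P : Program α} {U : Finset α} (hU : EvenFVS P U)
    {I J : α → TV} (hI : StablePartial P I) (hJ : StablePartial P J)
    {a : α} (ha : (I a = 2 ∧ J a = 0) ∨ (I a = 0 ∧ J a = 2)) :
    ∃ u ∈ U, (I u = 2 ∧ J u = 0) ∨ (I u = 0 ∧ J u = 2) := by
  classical
  -- the key step, for one direction
  have key : ∀ I J : α → TV, StablePartial P I → StablePartial P J → ∀ v, I v = 2 → J v = 0 →
      ∃ w, (I w = 2 ∧ J w = 0 ∧ Arc P false w v) ∨ (I w = 0 ∧ J w = 2 ∧ Arc P true w v) := by
    intro I J hI hJ v hIv hJv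
    by_contra hcon
    push Not at hcon
    -- otherwise `v` could be lowered in `I`
    let I' : α → TV := fun a => if a = v then 1 else I a
    have hI'le : I' ≤ I := by
      intro b
      by_cases hb : b = v
      · subst hb
        simp [I', hIv]
      · simp [I', hb]
    have hm : ReductModel P I I' := by
      rw [reductModel_iff]
      intro r hr
      have h1 : body I I' r ≤ I r.head := (body_mono hI'le).trans (hI.1 r hr)
      by_cases hh : r.head = v
      · have h2 : I' r.head = 1 := by simp [I', hh]
        rw [h2]
        by_contra h3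
        have h4 : (2 : TV) ≤ body I I' r := by
          generalize body I I' r = y at h3
          revert h3; revert y; decide
        rw [le_body_iff] at h4
        have h5 : (1 : TV) ≤ body J J r := by
          rw [le_body_iff]
          constructor
          · intro b hb
            have h6 : I b = 2 := TV.eq_two ((h4.1 b hb).trans (hI'le b))
            have h7 : J b ≠ 0 := fun h8 => (hcon b).1 h6 h8 ⟨r, hr, hh, hb⟩
            generalize J b = y at h7
            revert h7; revert y; decide
          · intro c hc
            have h6 : I c = 0 := TV.rev_two (h4.2 c hc)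
            have h7 : J c ≠ 2 := fun h8 => (hcon c).2 h6 h8 ⟨r, hr, hh, hc⟩
            generalize J c = y at h7
            revert h7; revert y; decide
        have h6 : body J J r ≤ J r.head := hJ.1 r hr
        rw [hh, hJv] at h6
        exact absurd (h5.trans h6) (by decide)
      · have h2 : I' r.head = I r.head := by simp [I', hh]
        rw [h2]
        exact h1
    have h3 : I ≤ I' := hI.2 hm
    have h4 := h3 v
    have h5 : I' v = 1 := by simp [I']
    rw [h5, hIv] at h4
    exact TV.not_two_le_one h4
  have key2 : ∀ v ∈ {v | (I v = 2 ∧ J v = 0) ∨ (I v = 0 ∧ J v = 2)},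
      ∃ w ∈ {v | (I v = 2 ∧ J v = 0) ∨ (I v = 0 ∧ J v = 2)},
        Arc P (xor (decide (I w = 2)) (decide (I v = 2))) w v := by
    rintro v (⟨h1, h2⟩ | ⟨h1, h2⟩)
    · obtain ⟨w, ⟨h3, h4, h5⟩ | ⟨h3, h4, h5⟩⟩ := key I J hI hJ v h1 h2
      · exact ⟨w, Or.inl ⟨h3, h4⟩, by simpa [h1, h3] using h5⟩
      · exact ⟨w, Or.inr ⟨h3, h4⟩, by simpa [h1, h3] using h5⟩
    · obtain ⟨w, ⟨h3, h4, h5⟩ | ⟨h3, h4, h5⟩⟩ := key J I hJ hI v h2 h1
      · exact ⟨w, Or.inr ⟨h4, h3⟩, by simpa [h1, h4] using h5⟩
      · exact ⟨w, Or.inl ⟨h4, h3⟩, by simpa [h1, h4] using h5⟩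
  obtain ⟨C, hC, hCS⟩ := exists_cycle _ (fun v => decide (I v = 2)) ⟨a, ha⟩ key2
  obtain ⟨i, hi⟩ := hU C hC
  exact ⟨C.v i, hi, hCS i⟩

/-- Above every interpretation `K` with `K ≤ₖ Γ(K)` there is a stable partial model. -/
theorem exists_stable_above [Finite α] (P : Program α) (K : α → TV) (hK : InfoLE K (Gam P K)) :
    ∃ M, StablePartial P M ∧ InfoLE K M := by
  classical
  have := Fintype.ofFinite α
  -- number of defined atoms
  let μ : (α → TV) → ℕ := fun M => (Finset.univ.filter fun a => M a ≠ 1).card
  obtain ⟨M, ⟨hKM, hM⟩, hmax⟩ := Set.exists_max_image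
    {M : α → TV | InfoLE K M ∧ InfoLE M (Gam P M)} μ (Set.toFinite _) ⟨K, infoLE_rfl K, hK⟩
  refine ⟨M, stable_iff.2 ?_, hKM⟩
  have h1 := hmax (Gam P M) ⟨hKM.trans hM, Gam_mono P hM⟩
  -- the sets of defined atoms agree
  have h2 : (Finset.univ.filter fun a => M a ≠ 1) ⊆ (Finset.univ.filter fun a => Gam P M a ≠ 1) := by
    intro a ha
    simp only [Finset.mem_filter, Finset.mem_univ, true_and] at ha ⊢
    rw [hM a ha]
    exact ha
  have h3 := Finset.eq_of_subset_of_card_le h2 h1
  funext a
  by_cases ha : M a = 1
  · have h4 : a ∉ (Finset.univ.filter fun a => M a ≠ 1) := by simp [ha]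
    rw [h3] at h4
    simp only [Finset.mem_filter, Finset.mem_univ, true_and, not_not] at h4
    rw [h4, ha]
  · exact hM a ha

/-- Two different regular models are in conflict somewhere. -/
theorem conflict_of_ne [Finite α] {P : Program α} {I J : α → TV} (hI : Regular P I)
    (hJ : Regular P J) (hne : I ≠ J) : ∃ a, (I a = 2 ∧ J a = 0) ∨ (I a = 0 ∧ J a = 2) := by
  classical
  by_contra hcon
  push Not at hcon
  let K : α → TV := fun a => if I a ≠ 1 then I a else J a
  have hIK : InfoLE I K := by
    intro a ha
    simp [K, ha]
  have hJK : InfoLE J K := by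
    intro a ha
    by_cases h : I a = 1
    · simp [K, h]
    · show (if I a ≠ 1 then I a else J a) = J a
      rw [if_pos h]
      have h1 := hcon a
      generalize I a = y at h1 h
      generalize J a = z at h1 ha
      revert h1 h ha
      revert y z
      decide
  have hK : InfoLE K (Gam P K) := by
    intro a ha
    by_cases h : I a = 1
    · have h1 : K a = J a := by simp [K, h]
      have h2 : InfoLE J (Gam P K) := by
        have := Gam_mono P hJK
        rwa [stable_iff.1 hJ.1] at this
      rw [h1]
      exact h2 a (by rwa [← h1])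
    · have h1 : K a = I a := by simp [K, h]
      have h2 : InfoLE I (Gam P K) := by
        have := Gam_mono P hIK
        rwa [stable_iff.1 hI.1] at this
      rw [h1]
      exact h2 a (by rwa [← h1])
  obtain ⟨M, hM, hKM⟩ := exists_stable_above P K hK
  have h1 := hI.2 M hM (hIK.trans hKM)
  have h2 := hJ.2 M hM (hJK.trans hKM)
  exact hne (h1.symm.trans h2)

/-- Two different regular models are in conflict on every set which meets every even cycle. -/
theorem regular_conflict [Finite α] {P : Program α} {U : Finset α} (hU : EvenFVS P U)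
    {I J : α → TV} (hI : Regular P I) (hJ : Regular P J) (hne : I ≠ J) :
    ∃ u ∈ U, (I u = 2 ∧ J u = 0) ∨ (I u = 0 ∧ J u = 2) := by
  obtain ⟨a, ha⟩ := conflict_of_ne hI hJ hne
  exact conflict_on_U hU hI.1 hJ.1 ha

/-- The number of regular models is at most `2 ^ |U|`. -/
theorem card_regular_le [Finite α] {P : Program α} {U : Finset α} (hU : EvenFVS P U) :
    {I : α → TV | Regular P I}.ncard ≤ 2 ^ U.card := by
  classical
  let f : (α → TV) → (U → Bool) := fun I u => decide (I u.1 = 2)
  have h1 : Set.InjOn f {I : α → TV | Regular P I} := by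
    intro I hI J hJ hIJ
    by_contra hne
    obtain ⟨u, hu, h⟩ := regular_conflict hU hI hJ hne
    have h2 := congrFun hIJ ⟨u, hu⟩
    simp only [f, decide_eq_decide] at h2
    rcases h with ⟨h3, h4⟩ | ⟨h3, h4⟩
    · rw [h3, h4] at h2
      exact absurd (h2.1 rfl) (by decide)
    · rw [h3, h4] at h2
      exact absurd (h2.2 rfl) (by decide)
  have h2 := Set.ncard_le_ncard_of_injOn f (t := Set.univ) (fun _ _ => Set.mem_univ _) h1
    (Set.toFinite _)
  rw [Set.ncard_univ, Nat.card_eq_fintype_card] at h2
  simpa using h2

end Pool.Agent.R547.RM
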